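import Pool.Agent.Helper83.SU.St

set_option autoImplicit false

namespace Pool.Agent.Helper13.SU

open Pool.Agent.Helper83.SU Pool.Agent.Helper83.CK Cardinal Set

universe u

variable {α : Type u} [LinearOrder α] [WellFoundedLT α]

private lemma ot_mono {X Y : Set α} (h : X ⊆ Y) : ot X ≤ ot Y := by
  unfold ot
  rw [Ordinal.type_le_iff']
  exact ⟨⟨⟨fun x => ⟨x.1, h x.2⟩, fun x y hxy => Subtype.ext (by simpa using hxy)⟩, by
    intro x y; rfl⟩⟩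

private lemma ot_inter (X : Set α) (c : α) (hc : c ∈ X) :
    ot (X ∩ Iio c) = Ordinal.typein (Subrel (· < · : α → α → Prop) (· ∈ X)) ⟨c, hc⟩ := by
  unfold ot
  rw [← Ordinal.type_subrel, Ordinal.type_eq]
  refine ⟨⟨⟨fun x => ⟨⟨x.1, x.2.1⟩, x.2.2⟩, fun x => ⟨x.1.1, x.1.2, x.2⟩, fun x => rfl,
    fun x => rfl⟩, ?_⟩⟩
  intro x y
  rfl

private lemma ot_inter_lt (X : Set α) (c : α) (hc : c ∈ X) : ot (X ∩ Iio c) < ot X := by
  rw [ot_inter X c hc]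
  exact Ordinal.typein_lt_type _ _

private lemma part3 (X : Set α) (η : Ordinal.{u}) (h : η < ot X) :
    ∃ c ∈ X, ot (X ∩ Iio c) = η := by
  obtain ⟨c, hc⟩ := Ordinal.typein_surj (Subrel (· < · : α → α → Prop) (· ∈ X)) h
  exact ⟨c.1, c.2, by rw [ot_inter X c.1 c.2]; exact hc⟩

private lemma part2 (X : Set α) (ξ c ξ' : α) (hc : c ∈ X) (h1 : ξ ≤ c) (h2 : c < ξ') :
    ot (X ∩ Iio ξ) < ot (X ∩ Iio ξ') := by
  have h3 : ot (X ∩ Iio ξ) ≤ ot ((X ∩ Iio ξ') ∩ Iio c) :=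
    ot_mono fun x hx => ⟨⟨hx.1, (lt_of_lt_of_le hx.2 h1).trans h2⟩, lt_of_lt_of_le hx.2 h1⟩
  exact h3.trans_lt (ot_inter_lt _ c ⟨hc, h2⟩)

theorem mOT : StOT.{u} := by
  intro α _ _
  refine ⟨fun X Y h => ot_mono h, fun X ξ c ξ' hc h1 h2 => part2 X ξ c ξ' hc h1 h2,
    fun X η h => part3 X η h, fun a b => ⟨fun h => ?_, fun h => ?_⟩, fun a o ho => ?_⟩
  · by_contra hab
    push Not at hab
    exact absurd (ot_mono (Iio_subset_Iio hab)) (not_le.2 h)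
  · have := part2 univ a a b (mem_univ _) le_rfl h
    simpa using this
  · rcases ho.lt_or_eq with h | h
    · obtain ⟨c, hc, hc2⟩ := part3 (Iio a) o h
      refine ⟨c, ?_⟩
      rw [← hc2]
      congr 1
      ext x
      exact ⟨fun hx => ⟨lt_trans hx hc, hx⟩, fun hx => hx.2⟩
    · exact ⟨a, h.symm⟩

end Pool.Agent.Helper13.SU
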